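import Pool.Agent.K7.H55.RH.Near

/-!
# Rohrlich's conjecture for the rational approximations of almost all points

We consider the rational approximations `t` of a point `ξ` of `ℝ ^ n` and the arguments `a_i = c_i t_{j(i)} + x_i`
(`c_i ≠ 0` and `x_i` rational numbers), for instance `a_i = t_i`. For all `ξ` outside a set of small Hausdorff dimension
the open direction of the conjecture holds for all but finitely many approximations `t` of `ξ` of a given quality, for all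
families of arguments `a_i` and all multiples `α π ^ (r/2)` whose factor `α` is algebraic of bounded complexity over the
numbers `e(t_k / N)` and `p ^ (t_k / N)`.
-/

set_option autoImplicit false

namespace Pool.Agent.Results.MP_c2409d_nt.ApproximationsOfPoints

open Pool.Agent.Results.MP_c2409d_nt.CommensurableArguments

/-- the height of a tuple of rational numbers: the largest denominator -/
def height {n : ℕ} (t : Fin n → ℚ) : ℕ := max 1 (Finset.univ.sup fun k => (t k).den)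

/-- The tuple `t` is exceptional for the arguments `a_i = c_i t_{j(i)} + x_i`: Rohrlich's identity (the condition on the
fractional parts) fails, although the product of the `Γ(a_i)` is `α π ^ (r / 2)` with a number `α` which satisfies
with the numbers `exp(2 π i t_k / N)` and `p ^ (t_k / N)` (`p` one of the first `B` primes) a nontrivial polynomial relation
of degree at most `d` in each variable, whose coefficients are integers of absolute value at most `height t ^ A`. -/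
def Exceptional {n r : ℕ} (c x : Fin r → ℚ) (j : Fin r → Fin n) (N B d : ℕ) (A : ℝ) (t : Fin n → ℚ) : Prop :=
  ¬ Identity (args c x j t) ∧
    ∃ α : ℂ, ((∏ i, Real.Gamma (args c x j t i) : ℝ) : ℂ) = α * ((Real.pi ^ ((r : ℝ) / 2) : ℝ) : ℂ) ∧
      Simple N B d ((height t : ℝ) ^ A) t α

/-- the parameters of the countably many conditions -/
abbrev Index (n : ℕ) : Type :=
  Σ r : ℕ, (Fin r → ℚ) × (Fin r → ℚ) × (Fin r → Fin n) × (ℚ × ℚ) × (ℕ × ℕ × ℕ × ℕ)

/-- the bad tuples for one set of parameters -/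
def Bad {n : ℕ} (i : Index n) (t : Fin n → ℚ) : Prop :=
  ((∀ k, i.2.1 k ≠ 0) ∧ 0 < i.2.2.2.2.2.1 ∧
    ∀ k (s : ℝ), (i.2.2.2.2.1.1 : ℝ) ≤ s → s ≤ (i.2.2.2.2.1.2 : ℝ) → ∀ m : ℕ,
      (i.2.1 k : ℝ) * s + i.2.2.1 k ≠ -m) ∧
  ((∀ k, ((i.2.2.2.2.1.1 : ℚ) : ℝ) ≤ (t k : ℝ) ∧ (t k : ℝ) ≤ ((i.2.2.2.2.1.2 : ℚ) : ℝ)) ∧
    Pool.Agent.K7.H55.RH.Exc i.2.1 i.2.2.1 i.2.2.2.1 i.2.2.2.2.2.1 i.2.2.2.2.2.2.1 i.2.2.2.2.2.2.2.1
      ((Pool.Agent.K7.H55.RH.height t : ℝ) ^ (i.2.2.2.2.2.2.2.2 : ℝ)) t)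

theorem count {n : ℕ} (hn : 1 ≤ n) (i : Index n) (ε : ℝ) (hε : 0 < ε) :
    ∃ C : ℝ, ∀ T : ℝ, 1 ≤ T →
      {t : Fin n → ℚ | Bad i t ∧ (Pool.Agent.K7.H55.RH.height t : ℝ) ≤ T}.Finite ∧
      (({t : Fin n → ℚ | Bad i t ∧ (Pool.Agent.K7.H55.RH.height t : ℝ) ≤ T}.ncard : ℕ) : ℝ) ≤
        C * T ^ ((2 * ((n : ℝ) - 1)) + ε) := by
  obtain ⟨r, c, x, j, ⟨a, b⟩, N, B, d, A⟩ := i
  by_cases h : (∀ k, c k ≠ 0) ∧ 0 < N ∧ ∀ k (s : ℝ), (a : ℝ) ≤ s → s ≤ (b : ℝ) → ∀ m : ℕ,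
      (c k : ℝ) * s + x k ≠ -m
  · obtain ⟨C, H⟩ := Pool.Agent.K7.H55.RH.count n r hn c h.1 x j a b h.2.2 N B d h.2.1 A
      (Nat.cast_nonneg _) ε hε
    refine ⟨C, fun T hT => ?_⟩
    obtain ⟨h1, h2⟩ := H T hT
    have e : {t : Fin n → ℚ | Bad ⟨r, c, x, j, (a, b), N, B, d, A⟩ t ∧
        (Pool.Agent.K7.H55.RH.height t : ℝ) ≤ T} =
        {t : Fin n → ℚ | ((∀ k, (a : ℝ) ≤ (t k : ℝ) ∧ (t k : ℝ) ≤ b) ∧
        Pool.Agent.K7.H55.RH.Exc c x j N B d ((Pool.Agent.K7.H55.RH.height t : ℝ) ^ (A : ℝ)) t) ∧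
        (Pool.Agent.K7.H55.RH.height t : ℝ) ≤ T} := by
      ext t
      constructor
      · rintro ⟨⟨-, h3⟩, h4⟩
        exact ⟨h3, h4⟩
      · rintro ⟨h3, h4⟩
        exact ⟨⟨h, h3⟩, h4⟩
    rw [e]
    exact ⟨h1, h2⟩
  · refine ⟨0, fun T hT => ?_⟩
    have e : {t : Fin n → ℚ | Bad ⟨r, c, x, j, (a, b), N, B, d, A⟩ t ∧
        (Pool.Agent.K7.H55.RH.height t : ℝ) ≤ T} = ∅ := by
      rw [Set.eq_empty_iff_forall_notMem]
      rintro t ⟨⟨h3, -⟩, -⟩
      exact h h3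
    rw [e]
    simp

theorem finite_of_bounded {n : ℕ} (R T : ℝ) :
    {t : Fin n → ℚ | (∀ k, |(t k : ℝ)| ≤ R) ∧ (height t : ℝ) ≤ T}.Finite := by
  have h := Set.Finite.pi (ι := Fin n) (fun _ : Fin n => Pool.Agent.K7.H55.RH.box_finite R T)
  refine h.subset ?_
  rintro t ⟨h1, h2⟩
  rw [Set.mem_pi]
  intro k _
  exact ⟨h1 k, (Pool.Agent.K7.H55.RH.den_le_height t k).trans h2⟩

/-- **Theorem.** Let `n ≥ 1` and `τ > 0`. There is a set `E` of points of `ℝ ^ n` of Hausdorff dimension at most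
`2 (n - 1) / τ` such that for all `ξ` outside `E`, all families `a_i = c_i t_{j(i)} + x_i` of arguments
(`c_i ≠ 0` and `x_i` rational, `i = 1, …, r`) for which no `c_i s + x_i` has a pole of the gamma function on an interval
`[a, b]` whose interior contains all `ξ_k`, and all `N ≥ 1`, `B`, `d`, `A`, `κ`, only finitely many rational points `t` with
`dist t ξ ≤ κ (height t) ^ (-τ)` are exceptional. -/
theorem result (n : ℕ) (hn : 1 ≤ n) (τ : ℝ) (hτ : 0 < τ) :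
    ∃ E : Set (Fin n → ℝ), dimH E ≤ ENNReal.ofReal (2 * ((n : ℝ) - 1) / τ) ∧
      ∀ ξ : Fin n → ℝ, ξ ∉ E → ∀ (r : ℕ) (c x : Fin r → ℚ) (j : Fin r → Fin n) (a b : ℝ),
        (∀ i, c i ≠ 0) → (∀ k, a < ξ k ∧ ξ k < b) →
        (∀ i (s : ℝ), a ≤ s → s ≤ b → ∀ k : ℕ, (c i : ℝ) * s + x i ≠ -k) →
        ∀ (N B d : ℕ) (A κ : ℝ), 0 < N →
          {t : Fin n → ℚ | dist (fun k => (t k : ℝ)) ξ ≤ κ * (height t : ℝ) ^ (-τ) ∧
            Exceptional c x j N B d A t}.Finite := by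
  have hn' : (0 : ℝ) ≤ (n : ℝ) - 1 := by
    have : (1 : ℝ) ≤ n := by exact_mod_cast hn
    linarith
  have key := fun i : Index n => Pool.Agent.R559.NP.near_dim (T := Fin n → ℚ) (X := Fin n → ℝ)
    (H := fun t => (Pool.Agent.K7.H55.RH.height t : ℝ)) Pool.Agent.K7.H55.RH.one_le_height
    (Bad := Bad i) (s := 2 * ((n : ℝ) - 1)) (by positivity) hτ (count hn i)
    (fun t => fun k => (t k : ℝ))
  choose E hE hE' using key
  refine ⟨⋃ i, E i, ?_, ?_⟩
  · rw [dimH_iUnion]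
    exact iSup_le hE
  · intro ξ hξ r c x j a b hc hξab hpole N B d A κ hN
    rw [Set.mem_iUnion] at hξ
    push Not at hξ
    -- rational endpoints
    have hfin : (Set.range ξ).Finite := Set.finite_range ξ
    obtain ⟨a', ha1, ha2⟩ : ∃ a' : ℚ, a < a' ∧ ∀ k, (a' : ℝ) < ξ k := by
      have : Nonempty (Fin n) := ⟨⟨0, hn⟩⟩
      obtain ⟨k₀, hk₀⟩ := Finite.exists_min ξ
      obtain ⟨q, hq1, hq2⟩ := exists_rat_btwn (hξab k₀).1
      exact ⟨q, hq1, fun k => hq2.trans_le (hk₀ k)⟩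
    obtain ⟨b', hb1, hb2⟩ : ∃ b' : ℚ, b' < b ∧ ∀ k, ξ k < (b' : ℝ) := by
      have : Nonempty (Fin n) := ⟨⟨0, hn⟩⟩
      obtain ⟨k₀, hk₀⟩ := Finite.exists_max ξ
      obtain ⟨q, hq1, hq2⟩ := exists_rat_btwn (hξab k₀).2
      exact ⟨q, hq2, fun k => (hk₀ k).trans_lt hq1⟩
    obtain ⟨A', hA'⟩ := exists_nat_ge A
    have h1 := hE' ⟨r, c, x, j, (a', b'), N, B, d, A'⟩ ξ (hξ _) κ
    -- distance to the complement of the box
    obtain ⟨δ, hδ, hδ'⟩ : ∃ δ : ℝ, 0 < δ ∧ ∀ k, δ ≤ ξ k - a' ∧ δ ≤ b' - ξ k := by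
      have : Nonempty (Fin n) := ⟨⟨0, hn⟩⟩
      obtain ⟨k₀, hk₀⟩ := Finite.exists_min fun k => min (ξ k - a') (b' - ξ k)
      refine ⟨min (ξ k₀ - a') (b' - ξ k₀), lt_min (by linarith [ha2 k₀]) (by linarith [hb2 k₀]),
        fun k => ?_⟩
      exact ⟨(hk₀ k).trans (min_le_left _ _), (hk₀ k).trans (min_le_right _ _)⟩
    set R : ℝ := ‖ξ‖ + |κ| with hR
    set T : ℝ := (|κ| / δ) ^ (1 / τ) with hT
    refine (h1.union (finite_of_bounded (n := n) R T)).subset ?_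
    rintro t ⟨h2, h3, α, h4, h5⟩
    have hH1 : (1 : ℝ) ≤ (height t : ℝ) := Pool.Agent.K7.H55.RH.one_le_height t
    have hHp : 0 < (height t : ℝ) ^ (-τ) := by positivity
    have hH2 : (height t : ℝ) ^ (-τ) ≤ 1 := Real.rpow_le_one_of_one_le_of_nonpos hH1 (by linarith)
    have hdk : ∀ k, |(t k : ℝ) - ξ k| ≤ |κ| * (height t : ℝ) ^ (-τ) := by
      intro k
      have h6 := dist_le_pi_dist (fun k => (t k : ℝ)) ξ k
      rw [Real.dist_eq] at h6
      exact h6.trans (h2.trans (mul_le_mul_of_nonneg_right (le_abs_self κ) hHp.le))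
    by_cases hin : ∀ k, (a' : ℝ) ≤ (t k : ℝ) ∧ (t k : ℝ) ≤ b'
    · left
      refine ⟨h2, ⟨hc, hN, fun k s hs1 hs2 => hpole k s (ha1.le.trans hs1) (hs2.trans hb1.le)⟩, hin, h3, α,
        h4, ?_⟩
      exact Pool.Agent.K7.H55.RH.Simple.mono
        (Real.rpow_le_rpow_of_exponent_le hH1 hA') h5
    · right
      refine ⟨fun k => ?_, ?_⟩
      · have h6 := hdk k
        have h7 : |ξ k| ≤ ‖ξ‖ := norm_le_pi_norm ξ k
        have h8 : |(t k : ℝ)| ≤ |(t k : ℝ) - ξ k| + |ξ k| := by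
          have := abs_add_le ((t k : ℝ) - ξ k) (ξ k)
          rwa [sub_add_cancel] at this
        have h9 : |κ| * (height t : ℝ) ^ (-τ) ≤ |κ| :=
          mul_le_of_le_one_right (abs_nonneg _) hH2
        rw [hR]
        linarith
      · push Not at hin
        obtain ⟨k, hk⟩ := hin
        have h6 : δ ≤ |(t k : ℝ) - ξ k| := by
          by_cases h7 : (a' : ℝ) ≤ (t k : ℝ)
          · have h8 := hk h7
            have h9 := (hδ' k).2
            rw [abs_of_pos (by linarith)]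
            linarith
          · push Not at h7
            have h9 := (hδ' k).1
            rw [abs_of_neg (by linarith)]
            linarith
        have h7 : δ ≤ |κ| * (height t : ℝ) ^ (-τ) := h6.trans (hdk k)
        have hHp' : 0 < (height t : ℝ) ^ τ := by positivity
        have h8 : (height t : ℝ) ^ τ ≤ |κ| / δ := by
          rw [le_div_iff₀ hδ]
          rw [Real.rpow_neg (by linarith), ← div_eq_mul_inv, le_div_iff₀ hHp'] at h7
          linarith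
        rw [hT]
        calc (height t : ℝ) = ((height t : ℝ) ^ τ) ^ (1 / τ) := by
              rw [← Real.rpow_mul (by linarith), mul_one_div_cancel hτ.ne', Real.rpow_one]
          _ ≤ (|κ| / δ) ^ (1 / τ) := Real.rpow_le_rpow hHp'.le h8 (by positivity)

end Pool.Agent.Results.MP_c2409d_nt.ApproximationsOfPoints
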