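import Pool.Agent.K7.H63.RH.Loc

/-!
# Rohrlich's conjecture for commensurable arguments: a bounded number of exceptions in short intervals

The numbers `a_i` are affine functions with rational coefficients of one of `n` rational parameters:
`a_i = c_i t_{j(i)} + x_i`. Arguments with the same parameter are commensurable, so that the reflection and the
multiplication formula act on them, and Rohrlich's identity may hold for all values of the parameters
(`Γ(t) Γ(1 - t)`, `Γ(t) Γ(t + 1/2) Γ(1 - 2t) ...`) or not. Let `β ≠ 0` be any complex number, for instance `β = π ^ (r/2)`. We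
consider the parameters for which Rohrlich's identity fails and the product of the numbers `Γ(a_i)` is nevertheless `α β` with
a number `α` of bounded complexity over the numbers `e(t_k / N)` and `p ^ (t_k / N)`, which are the numbers that appear in the
known formulas (for instance with an algebraic number `α` of bounded degree and of height at most `T ^ A`).

Theorem: if `Y_1, …, Y_n` are sets of rational numbers with denominators at most `T`, each of them contained in an interval of
length `T ^ (-δ)`, there are at most `C ∑_k ∏_(i ≠ k) |Y_i|` such parameters in `Y_1 × … × Y_n`, where `C` does not depend on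
`T`, `β` and the sets `Y_k`. In particular for one parameter (`n = 1`) there are at most `C` of them in each interval of
length `T ^ (-δ)`, for instance among all the fractions `k / D` of such an interval, `T = D`. The starting result
`CommensurableArguments` has the bound `C T ^ ε |X| ^ (n - 1)` and `β = π ^ (r/2)`; the starting results
`EveryDenominator` (`a_i = t_i`) and `OneParameter` (`n = 1`, `t = 1 / m`) have algebraic `α` only.
-/

set_option autoImplicit false

namespace Pool.Agent.Results.MP_c2409d_nt.CommensurableShortIntervals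

/-- the numbers `a_i = c_i t_{j(i)} + x_i` -/
def args {n r : ℕ} (c x : Fin r → ℚ) (j : Fin r → Fin n) (t : Fin n → ℚ) (i : Fin r) : ℚ := c i * t (j i) + x i

/-- The condition of Rohrlich's conjecture, for every common denominator `D` of the numbers `a_i` and every `m` prime
to `D`: the sum of the fractional parts of the numbers `m a_i` is `r / 2`. -/
def Identity {r : ℕ} (a : Fin r → ℚ) : Prop :=
  ∀ D : ℕ, 0 < D → (∀ i, ∃ k : ℤ, D * a i = k) → ∀ m : ℕ, m.Coprime D → ∑ i, Int.fract (m * a i) = r / 2

/-- the numbers `exp(2 π i t_k / N)` and `p ^ (t_k / N)`, where `p` is one of the first `B` prime numbers -/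
noncomputable def elementary {n : ℕ} (N B : ℕ) (t : Fin n → ℚ) (v : Fin n × Option (Fin B)) : ℂ :=
  v.2.elim (Complex.exp (2 * Real.pi * Complex.I * (t v.1 / N)))
    fun b => (((Nat.nth Nat.Prime b : ℝ) ^ ((t v.1 : ℝ) / N) : ℝ) : ℂ)

/-- `α` satisfies with the elementary numbers a nontrivial polynomial relation of degree at most `d` in each variable,
whose coefficients are integers of absolute value at most `H`. -/
def Simple {n : ℕ} (N B d : ℕ) (H : ℝ) (t : Fin n → ℚ) (α : ℂ) : Prop :=
  ∃ P : MvPolynomial (Option (Fin n × Option (Fin B))) ℤ, P ≠ 0 ∧ (∀ v, P.degreeOf v ≤ d) ∧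
    (∀ s, |((P.coeff s : ℤ) : ℝ)| ≤ H) ∧ MvPolynomial.aeval (fun o => o.elim α (elementary N B t)) P = 0

/-- The parameters `t` in `Y_1 × … × Y_n` for which the product of the `Γ(a_i)` is `α β` with a simple `α`, although
Rohrlich's identity fails. -/
def Exceptional {n r : ℕ} (c x : Fin r → ℚ) (j : Fin r → Fin n) (N B d : ℕ) (H : ℝ) (β : ℂ) (Y : Fin n → Finset ℚ) :
    Set (Fin n → ℚ) :=
  {t | (∀ k, t k ∈ Y k) ∧ ¬ Identity (args c x j t) ∧
    ∃ α : ℂ, ((∏ i, Real.Gamma (args c x j t i) : ℝ) : ℂ) = α * β ∧ Simple N B d H t α}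

/-- Let `c_i ≠ 0` and `x_i` be rational numbers and `[a, b]` an interval on which no `c_i s + x_i` is a pole of the gamma
function. For every `β ≠ 0`, for all large `T` and all sets `Y_1, …, Y_n` of rational numbers of `[a, b]` with denominators at
most `T`, each of them of diameter at most `T ^ (-δ)`, at most `C ∑_k ∏_(i ≠ k) |Y_i|` of the `∏ |Y_i|` tuples of parameters
are exceptional; for `n = 1` these are at most `C` parameters. -/
theorem result (n r : ℕ) (c : Fin r → ℚ) (hc : ∀ i, c i ≠ 0) (x : Fin r → ℚ) (j : Fin r → Fin n) (a b : ℝ)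
    (hpole : ∀ i (s : ℝ), a ≤ s → s ≤ b → ∀ k : ℕ, (c i : ℝ) * s + x i ≠ -k)
    (N B d : ℕ) (hN : 0 < N) (A δ : ℝ) (hδ : 0 < δ) :
    ∃ C T₀ : ℝ, ∀ β : ℂ, β ≠ 0 → ∀ T : ℝ, T₀ ≤ T → ∀ Y : Fin n → Finset ℚ,
      (∀ k, ∀ q ∈ Y k, a ≤ (q : ℝ) ∧ (q : ℝ) ≤ b ∧ (q.den : ℝ) ≤ T) →
      (∀ k, ∀ q ∈ Y k, ∀ q' ∈ Y k, |(q : ℝ) - q'| ≤ T ^ (-δ)) →
      ((Exceptional c x j N B d (T ^ A) β Y).ncard : ℝ) ≤ C * ∑ k, ∏ i ∈ Finset.univ.erase k, ((Y i).card : ℝ) := by
  obtain ⟨C, T₀, H⟩ := Pool.Agent.K7.H63.RH.main_loc n r c hc x j a b hpole N B d hN A δ hδ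
  refine ⟨C, T₀, fun β hβ T hT Y hY hYd => ?_⟩
  have hfin : (Exceptional c x j N B d (T ^ A) β Y).Finite := by
    refine (Finset.finite_toSet (Fintype.piFinset Y)).subset ?_
    rintro q ⟨hq, -⟩
    rw [Finset.mem_coe, Fintype.mem_piFinset]
    exact hq
  have h1 := H β hβ T hT Y hY hYd hfin.toFinset (by
    intro t ht
    rw [Set.Finite.mem_toFinset] at ht
    obtain ⟨h1, h2, α, h3, P, h4, h5, h6, h7⟩ := ht
    exact ⟨h1, h2, α, P, h3, h4, h5, h6, h7⟩)
  rw [Set.ncard_eq_toFinset_card _ hfin]
  exact h1

end Pool.Agent.Results.MP_c2409d_nt.CommensurableShortIntervals
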