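import Pool.Agent.K7.H55.RH.Den

/-!
# Rohrlich's conjecture for approximations with a common denominator and for truncated expansions

We consider the arguments `a_i = c_i t_{j(i)} + x_i` (`c_i ≠ 0` and `x_i` rational numbers) at the rational points
`t = (p_1 / q, …, p_n / q)` close to a point `ξ` of `ℝ ^ n`, where the common denominator `q` belongs to a given set `Q`,
for instance at the points whose coordinates are the truncated expansions of the `ξ_i` in base `g`. For all `ξ` outside a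
set of small Hausdorff dimension the open direction of the conjecture holds for all but finitely many of these points, for
all families of arguments `a_i` and all multiples `α π ^ (r/2)` whose factor `α` is algebraic of bounded complexity over
the numbers `e(t_k / N)` and `p ^ (t_k / N)`.
-/

set_option autoImplicit false

open Filter

namespace Pool.Agent.Results.MP_c2409d_nt.CommonDenominators

open Pool.Agent.Results.MP_c2409d_nt.CommensurableArguments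

/-- The point `t` is exceptional for the arguments `a_i = c_i t_{j(i)} + x_i`: Rohrlich's identity (the condition on the
fractional parts) fails, although the product of the `Γ(a_i)` is `α π ^ (r / 2)` with a number `α` which satisfies
with the numbers `exp(2 π i t_k / N)` and `p ^ (t_k / N)` (`p` one of the first `B` primes) a nontrivial polynomial relation
of degree at most `d` in each variable, whose coefficients are integers of absolute value at most `R`. -/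
def Exceptional {n r : ℕ} (c x : Fin r → ℚ) (j : Fin r → Fin n) (N B d : ℕ) (R : ℝ) (t : Fin n → ℚ) : Prop :=
  ¬ Identity (args c x j t) ∧
    ∃ α : ℂ, ((∏ i, Real.Gamma (args c x j t i) : ℝ) : ℂ) = α * ((Real.pi ^ ((r : ℝ) / 2) : ℝ) : ℂ) ∧
      Simple N B d R t α

/-- The sequence of the elements of `Q` has an exponent of convergence of at most `ρ`: `Q` has at most `C T ^ (ρ + ε)`
elements up to `T`, for all `ε > 0`. For example `ρ = 1` for `Q = ℕ` and `ρ = 0` for the powers of a number. -/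
def Thin (Q : Set ℕ) (ρ : ℝ) : Prop :=
  ∀ ε : ℝ, 0 < ε → ∃ C : ℝ, ∀ T : ℝ, 1 ≤ T → ({q : ℕ | q ∈ Q ∧ (q : ℝ) ≤ T}.ncard : ℝ) ≤ C * T ^ (ρ + ε)

/-- the parameters of the countably many conditions -/
abbrev Index (n : ℕ) : Type :=
  Σ r : ℕ, (Fin r → ℚ) × (Fin r → ℚ) × (Fin r → Fin n) × (ℚ × ℚ) × (ℕ × ℕ × ℕ × ℕ)

/-- the bad pairs for one set of parameters -/
def Bad {n : ℕ} (Q : Set ℕ) (i : Index n) (t : ℕ × (Fin n → ℤ)) : Prop :=
  ((∀ k, i.2.1 k ≠ 0) ∧ 0 < i.2.2.2.2.2.1 ∧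
    ∀ k (s : ℝ), (i.2.2.2.2.1.1 : ℝ) ≤ s → s ≤ (i.2.2.2.2.1.2 : ℝ) → ∀ m : ℕ,
      (i.2.1 k : ℝ) * s + i.2.2.1 k ≠ -m) ∧
  ((1 ≤ t.1 ∧ t.1 ∈ Q) ∧
    (∀ k, ((i.2.2.2.2.1.1 : ℚ) : ℝ) ≤ (Pool.Agent.K7.H55.RH.pt t.1 t.2 k : ℝ) ∧
      (Pool.Agent.K7.H55.RH.pt t.1 t.2 k : ℝ) ≤ ((i.2.2.2.2.1.2 : ℚ) : ℝ)) ∧
    Pool.Agent.K7.H55.RH.Exc i.2.1 i.2.2.1 i.2.2.2.1 i.2.2.2.2.2.1 i.2.2.2.2.2.2.1 i.2.2.2.2.2.2.2.1
      ((t.1 : ℝ) ^ (i.2.2.2.2.2.2.2.2 : ℝ)) (Pool.Agent.K7.H55.RH.pt t.1 t.2))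

theorem count {n : ℕ} (hn : 1 ≤ n) (Q : Set ℕ) (ρ : ℝ) (hρ : 0 ≤ ρ) (hQ : Thin Q ρ) (i : Index n)
    (ε : ℝ) (hε : 0 < ε) :
    ∃ C : ℝ, ∀ T : ℝ, 1 ≤ T →
      {t : ℕ × (Fin n → ℤ) | Bad Q i t ∧ ((max 1 t.1 : ℕ) : ℝ) ≤ T}.Finite ∧
      (({t : ℕ × (Fin n → ℤ) | Bad Q i t ∧ ((max 1 t.1 : ℕ) : ℝ) ≤ T}.ncard : ℕ) : ℝ) ≤
        C * T ^ ((((n : ℝ) - 1) + ρ) + ε) := by
  obtain ⟨r, c, x, j, ⟨a, b⟩, N, B, d, A⟩ := i
  by_cases h : (∀ k, c k ≠ 0) ∧ 0 < N ∧ ∀ k (s : ℝ), (a : ℝ) ≤ s → s ≤ (b : ℝ) → ∀ m : ℕ,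
      (c k : ℝ) * s + x k ≠ -m
  · obtain ⟨C, H⟩ := Pool.Agent.K7.H55.RH.count_all n r hn c h.1 x j a b h.2.2 N B d h.2.1 A
      (Nat.cast_nonneg _) Q ρ hρ hQ ε hε
    refine ⟨C, fun T hT => ?_⟩
    obtain ⟨h1, h2⟩ := H T hT
    have e : {t : ℕ × (Fin n → ℤ) | Bad Q ⟨r, c, x, j, (a, b), N, B, d, A⟩ t ∧
        ((max 1 t.1 : ℕ) : ℝ) ≤ T} =
        {t : ℕ × (Fin n → ℤ) | ((1 ≤ t.1 ∧ t.1 ∈ Q) ∧
        (∀ k, (a : ℝ) ≤ (Pool.Agent.K7.H55.RH.pt t.1 t.2 k : ℝ) ∧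
          (Pool.Agent.K7.H55.RH.pt t.1 t.2 k : ℝ) ≤ b) ∧
        Pool.Agent.K7.H55.RH.Exc c x j N B d ((t.1 : ℝ) ^ (A : ℝ)) (Pool.Agent.K7.H55.RH.pt t.1 t.2)) ∧
        ((max 1 t.1 : ℕ) : ℝ) ≤ T} := by
      ext t
      constructor
      · rintro ⟨⟨-, h3⟩, h4⟩
        exact ⟨h3, h4⟩
      · rintro ⟨h3, h4⟩
        exact ⟨⟨h, h3⟩, h4⟩
    rw [e]
    exact ⟨h1, h2⟩
  · refine ⟨0, fun T hT => ?_⟩
    have e : {t : ℕ × (Fin n → ℤ) | Bad Q ⟨r, c, x, j, (a, b), N, B, d, A⟩ t ∧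
        ((max 1 t.1 : ℕ) : ℝ) ≤ T} = ∅ := by
      rw [Set.eq_empty_iff_forall_notMem]
      rintro t ⟨⟨h3, -⟩, -⟩
      exact h h3
    rw [e]
    simp

theorem finite_of_bounded {n : ℕ} (R : ℝ) (T : ℝ) :
    {t : ℕ × (Fin n → ℤ) | 1 ≤ t.1 ∧ (∀ k, |(Pool.Agent.K7.H55.RH.pt t.1 t.2 k : ℝ)| ≤ R) ∧
      (t.1 : ℝ) ≤ T}.Finite := by
  have h1 : (Set.Iic ⌊T⌋₊).Finite := Set.finite_Iic _
  have h2 : (Set.pi Set.univ (fun _ : Fin n => Set.Icc (-⌈R * T⌉) ⌈R * T⌉)).Finite :=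
    Set.Finite.pi fun _ => Set.finite_Icc _ _
  refine (h1.prod h2).subset ?_
  rintro ⟨q, p⟩ ⟨g1, g2, g3⟩
  simp only at g1 g2 g3
  have hq1 : (1 : ℝ) ≤ q := by exact_mod_cast g1
  refine ⟨Nat.le_floor g3, ?_⟩
  rw [Set.mem_pi]
  intro k _
  have h8 : (Pool.Agent.K7.H55.RH.pt q p k : ℝ) * q = p k := by
    unfold Pool.Agent.K7.H55.RH.pt
    push_cast
    have : (q : ℝ) ≠ 0 := by linarith
    field_simp
  have hR : 0 ≤ R := (abs_nonneg _).trans (g2 k)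
  have h10 : |((p k : ℤ) : ℝ)| ≤ R * T := by
    rw [← h8, abs_mul, abs_of_pos (by linarith : (0 : ℝ) < q)]
    exact mul_le_mul (g2 k) g3 (by linarith) hR
  rw [abs_le] at h10
  rw [Set.mem_Icc]
  have h11 := Int.le_ceil (R * T)
  constructor
  · have : ((-⌈R * T⌉ : ℤ) : ℝ) ≤ p k := by
      push_cast
      linarith [h10.1]
    exact_mod_cast this
  · have : ((p k : ℤ) : ℝ) ≤ (⌈R * T⌉ : ℤ) := by linarith [h10.2]
    exact_mod_cast this

/-- the statement for a set of denominators -/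
theorem denominators (n : ℕ) (hn : 1 ≤ n) (Q : Set ℕ) (ρ τ : ℝ) (hρ : 0 ≤ ρ) (hτ : 0 < τ)
    (hQ : Thin Q ρ) :
    ∃ E : Set (Fin n → ℝ), dimH E ≤ ENNReal.ofReal (((n : ℝ) - 1 + ρ) / τ) ∧
      ∀ ξ : Fin n → ℝ, ξ ∉ E → ∀ (r : ℕ) (c x : Fin r → ℚ) (j : Fin r → Fin n) (a b : ℝ),
        (∀ i, c i ≠ 0) → (∀ k, a < ξ k ∧ ξ k < b) →
        (∀ i (s : ℝ), a ≤ s → s ≤ b → ∀ k : ℕ, (c i : ℝ) * s + x i ≠ -k) →
        ∀ (N B d : ℕ) (A κ : ℝ), 0 < N →
          {t : ℕ × (Fin n → ℤ) | (1 ≤ t.1 ∧ t.1 ∈ Q) ∧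
            dist (fun k => (t.2 k : ℝ) / t.1) ξ ≤ κ * (t.1 : ℝ) ^ (-τ) ∧
            Exceptional c x j N B d ((t.1 : ℝ) ^ A) (fun k => (t.2 k : ℚ) / t.1)}.Finite := by
  have hn' : (0 : ℝ) ≤ (n : ℝ) - 1 := by
    have : (1 : ℝ) ≤ n := by exact_mod_cast hn
    linarith
  have key := fun i : Index n => Pool.Agent.R559.NP.near_dim (T := ℕ × (Fin n → ℤ))
    (X := Fin n → ℝ) (H := fun t => ((max 1 t.1 : ℕ) : ℝ))
    (fun t => by exact_mod_cast le_max_left 1 t.1)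
    (Bad := Bad Q i) (s := (n : ℝ) - 1 + ρ) (by positivity) hτ (count hn Q ρ hρ hQ i)
    (fun t => fun k => (Pool.Agent.K7.H55.RH.pt t.1 t.2 k : ℝ))
  choose E hE hE' using key
  refine ⟨⋃ i, E i, ?_, ?_⟩
  · rw [dimH_iUnion]
    exact iSup_le hE
  · intro ξ hξ r c x j a b hc hξab hpole N B d A κ hN
    rw [Set.mem_iUnion] at hξ
    push Not at hξ
    have : Nonempty (Fin n) := ⟨⟨0, hn⟩⟩
    obtain ⟨a', ha1, ha2⟩ : ∃ a' : ℚ, a < a' ∧ ∀ k, (a' : ℝ) < ξ k := by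
      obtain ⟨k₀, hk₀⟩ := Finite.exists_min ξ
      obtain ⟨q, hq1, hq2⟩ := exists_rat_btwn (hξab k₀).1
      exact ⟨q, hq1, fun k => hq2.trans_le (hk₀ k)⟩
    obtain ⟨b', hb1, hb2⟩ : ∃ b' : ℚ, b' < b ∧ ∀ k, ξ k < (b' : ℝ) := by
      obtain ⟨k₀, hk₀⟩ := Finite.exists_max ξ
      obtain ⟨q, hq1, hq2⟩ := exists_rat_btwn (hξab k₀).2
      exact ⟨q, hq2, fun k => (hk₀ k).trans_lt hq1⟩
    obtain ⟨A', hA'⟩ := exists_nat_ge A
    have h1 := hE' ⟨r, c, x, j, (a', b'), N, B, d, A'⟩ ξ (hξ _) κ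
    obtain ⟨δ, hδ, hδ'⟩ : ∃ δ : ℝ, 0 < δ ∧ ∀ k, δ ≤ ξ k - a' ∧ δ ≤ b' - ξ k := by
      obtain ⟨k₀, hk₀⟩ := Finite.exists_min fun k => min (ξ k - a') (b' - ξ k)
      refine ⟨min (ξ k₀ - a') (b' - ξ k₀), lt_min (by linarith [ha2 k₀]) (by linarith [hb2 k₀]),
        fun k => ?_⟩
      exact ⟨(hk₀ k).trans (min_le_left _ _), (hk₀ k).trans (min_le_right _ _)⟩
    set R : ℝ := ‖ξ‖ + |κ| with hR
    set T : ℝ := (|κ| / δ) ^ (1 / τ) with hT
    refine (h1.union (finite_of_bounded (n := n) R T)).subset ?_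
    rintro ⟨q, p⟩ ⟨⟨hq, hqQ⟩, h2, h3, α, h4, h5⟩
    simp only at hq hqQ h2 h3 h4 h5
    have hq1 : (1 : ℝ) ≤ q := by exact_mod_cast hq
    have hmax : ((max 1 q : ℕ) : ℝ) = q := by
      rw [max_eq_right hq]
    have hpt : ∀ k, (Pool.Agent.K7.H55.RH.pt q p k : ℝ) = (p k : ℝ) / q := by
      intro k
      unfold Pool.Agent.K7.H55.RH.pt
      push_cast
      rfl
    have hHp : 0 < (q : ℝ) ^ (-τ) := by positivity
    have hH2 : (q : ℝ) ^ (-τ) ≤ 1 := Real.rpow_le_one_of_one_le_of_nonpos hq1 (by linarith)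
    have hdk : ∀ k, |(Pool.Agent.K7.H55.RH.pt q p k : ℝ) - ξ k| ≤ |κ| * (q : ℝ) ^ (-τ) := by
      intro k
      have h6 := dist_le_pi_dist (fun k => (p k : ℝ) / q) ξ k
      rw [Real.dist_eq] at h6
      rw [hpt]
      exact h6.trans (h2.trans (mul_le_mul_of_nonneg_right (le_abs_self κ) hHp.le))
    by_cases hin : ∀ k, (a' : ℝ) ≤ (Pool.Agent.K7.H55.RH.pt q p k : ℝ) ∧
        (Pool.Agent.K7.H55.RH.pt q p k : ℝ) ≤ b'
    · left
      refine ⟨?_, ⟨hc, hN, fun k s hs1 hs2 => hpole k s (ha1.le.trans hs1) (hs2.trans hb1.le)⟩,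
        ⟨hq, hqQ⟩, hin, h3, α, h4, ?_⟩
      · simp only [hmax, hpt]
        exact h2
      · exact Pool.Agent.K7.H55.RH.Simple.mono
          (Real.rpow_le_rpow_of_exponent_le hq1 hA') h5
    · right
      refine ⟨hq, fun k => ?_, ?_⟩
      · simp only
        have h6 := hdk k
        have h7 : |ξ k| ≤ ‖ξ‖ := norm_le_pi_norm ξ k
        have h8 : |(Pool.Agent.K7.H55.RH.pt q p k : ℝ)| ≤
            |(Pool.Agent.K7.H55.RH.pt q p k : ℝ) - ξ k| + |ξ k| := by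
          have := abs_add_le ((Pool.Agent.K7.H55.RH.pt q p k : ℝ) - ξ k) (ξ k)
          rwa [sub_add_cancel] at this
        have h9 : |κ| * (q : ℝ) ^ (-τ) ≤ |κ| := mul_le_of_le_one_right (abs_nonneg _) hH2
        rw [hR]
        linarith
      · simp only
        push Not at hin
        obtain ⟨k, hk⟩ := hin
        have h6 : δ ≤ |(Pool.Agent.K7.H55.RH.pt q p k : ℝ) - ξ k| := by
          by_cases h7 : (a' : ℝ) ≤ (Pool.Agent.K7.H55.RH.pt q p k : ℝ)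
          · have h8 := hk h7
            have h9 := (hδ' k).2
            rw [abs_of_pos (by linarith)]
            linarith
          · push Not at h7
            have h9 := (hδ' k).1
            rw [abs_of_neg (by linarith)]
            linarith
        have h7 : δ ≤ |κ| * (q : ℝ) ^ (-τ) := h6.trans (hdk k)
        have hHp' : 0 < (q : ℝ) ^ τ := by positivity
        have h8 : (q : ℝ) ^ τ ≤ |κ| / δ := by
          rw [le_div_iff₀ hδ]
          rw [Real.rpow_neg (by linarith), ← div_eq_mul_inv, le_div_iff₀ hHp'] at h7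
          linarith
        rw [hT]
        calc (q : ℝ) = ((q : ℝ) ^ τ) ^ (1 / τ) := by
              rw [← Real.rpow_mul (by linarith), mul_one_div_cancel hτ.ne', Real.rpow_one]
          _ ≤ (|κ| / δ) ^ (1 / τ) := Real.rpow_le_rpow hHp'.le h8 (by positivity)

/-- the powers of `g ≥ 2` are thin -/
theorem thin_pow (g : ℕ) (hg : 2 ≤ g) : Thin (Set.range fun k : ℕ => g ^ k) 0 := by
  intro ε hε
  refine ⟨1 / (ε * Real.log 2) + 1, fun T hT => ?_⟩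
  have hT0 : (0 : ℝ) < T := by linarith
  have hlog2 : 0 < Real.log 2 := Real.log_pos (by norm_num)
  have hsub : {q : ℕ | q ∈ (Set.range fun k : ℕ => g ^ k) ∧ (q : ℝ) ≤ T} ⊆
      (((Finset.range (⌊Real.log T / Real.log 2⌋₊ + 1)).image fun k => g ^ k : Finset ℕ) : Set ℕ) := by
    rintro q ⟨⟨k, rfl⟩, hq⟩
    rw [Finset.mem_coe, Finset.mem_image]
    refine ⟨k, ?_, rfl⟩
    rw [Finset.mem_range]
    have h1 : (2 : ℝ) ^ k ≤ T := by
      refine le_trans ?_ hq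
      push_cast
      exact pow_le_pow_left₀ (by norm_num) (by exact_mod_cast hg) k
    have h2 : (k : ℝ) * Real.log 2 ≤ Real.log T := by
      rw [← Real.log_pow]
      exact Real.log_le_log (by positivity) h1
    have h3 : (k : ℝ) ≤ Real.log T / Real.log 2 := by rwa [le_div_iff₀ hlog2]
    exact Nat.lt_succ_of_le (Nat.le_floor h3)
  have h1 : ({q : ℕ | q ∈ (Set.range fun k : ℕ => g ^ k) ∧ (q : ℝ) ≤ T}.ncard : ℝ) ≤
      ((⌊Real.log T / Real.log 2⌋₊ + 1 : ℕ) : ℝ) := by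
    have h2 := Set.ncard_le_ncard hsub (Finset.finite_toSet _)
    rw [Set.ncard_coe_finset] at h2
    have h3 := h2.trans Finset.card_image_le
    rw [Finset.card_range] at h3
    exact_mod_cast h3
  have hlogT : 0 ≤ Real.log T := Real.log_nonneg hT
  have h2 : ((⌊Real.log T / Real.log 2⌋₊ : ℕ) : ℝ) ≤ Real.log T / Real.log 2 :=
    Nat.floor_le (by positivity)
  have h3 : Real.log T ≤ T ^ ε / ε := Real.log_le_rpow_div hT0.le hε
  have h4 : 1 ≤ T ^ ε := Real.one_le_rpow hT hε.le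
  push_cast at h1
  calc _ ≤ ((⌊Real.log T / Real.log 2⌋₊ : ℕ) : ℝ) + 1 := h1
    _ ≤ Real.log T / Real.log 2 + 1 := by linarith
    _ ≤ (T ^ ε / ε) / Real.log 2 + T ^ ε := by
        have : Real.log T / Real.log 2 ≤ (T ^ ε / ε) / Real.log 2 := by gcongr
        linarith
    _ = (1 / (ε * Real.log 2) + 1) * T ^ (0 + ε) := by
        rw [zero_add]
        field_simp

/-- **Theorem.** Let `n ≥ 1`.

(1) Let `Q` be a set of positive integers with at most `T ^ (ρ + o(1))` elements up to `T`, and `τ > 0`. There is a set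
`E` of points of `ℝ ^ n` of Hausdorff dimension at most `(n - 1 + ρ) / τ` such that for all `ξ` outside `E`, all families
`a_i = c_i t_{j(i)} + x_i` of arguments (`c_i ≠ 0` and `x_i` rational) for which no `c_i s + x_i` has a pole of the gamma
function on an interval `[a, b]` whose interior contains all `ξ_k`, and all `N ≥ 1`, `B`, `d`, `A`, `κ`, only finitely many
points `p / q` with `q` in `Q` and `dist (p / q) ξ ≤ κ q ^ (-τ)` are exceptional (for the bound `q ^ A` of the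
coefficients).

(2) There is a set `E` of points of `ℝ ^ n` of Hausdorff dimension at most `n - 1` (so `0` for `n = 1`) such that for all
`ξ` outside `E`, all families of arguments as in (1), all `N ≥ 1`, `B`, `d`, `A` and all bases `g ≥ 2`, for all but
finitely many `k` the point whose coordinates are the expansions in base `g` of the `ξ_i`, truncated after `k`
digits, is not exceptional (for the bound `(g ^ k) ^ A` of the coefficients). -/
theorem result (n : ℕ) (hn : 1 ≤ n) :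
    (∀ (Q : Set ℕ) (ρ τ : ℝ), 0 ≤ ρ → 0 < τ → Thin Q ρ →
      ∃ E : Set (Fin n → ℝ), dimH E ≤ ENNReal.ofReal (((n : ℝ) - 1 + ρ) / τ) ∧
        ∀ ξ : Fin n → ℝ, ξ ∉ E → ∀ (r : ℕ) (c x : Fin r → ℚ) (j : Fin r → Fin n) (a b : ℝ),
          (∀ i, c i ≠ 0) → (∀ k, a < ξ k ∧ ξ k < b) →
          (∀ i (s : ℝ), a ≤ s → s ≤ b → ∀ k : ℕ, (c i : ℝ) * s + x i ≠ -k) →
          ∀ (N B d : ℕ) (A κ : ℝ), 0 < N →
            {t : ℕ × (Fin n → ℤ) | (1 ≤ t.1 ∧ t.1 ∈ Q) ∧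
              dist (fun k => (t.2 k : ℝ) / t.1) ξ ≤ κ * (t.1 : ℝ) ^ (-τ) ∧
              Exceptional c x j N B d ((t.1 : ℝ) ^ A) (fun k => (t.2 k : ℚ) / t.1)}.Finite) ∧
    ∃ E : Set (Fin n → ℝ), dimH E ≤ ENNReal.ofReal ((n : ℝ) - 1) ∧
      ∀ ξ : Fin n → ℝ, ξ ∉ E → ∀ (r : ℕ) (c x : Fin r → ℚ) (j : Fin r → Fin n) (a b : ℝ),
        (∀ i, c i ≠ 0) → (∀ k, a < ξ k ∧ ξ k < b) →
        (∀ i (s : ℝ), a ≤ s → s ≤ b → ∀ k : ℕ, (c i : ℝ) * s + x i ≠ -k) →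
        ∀ (N B d : ℕ) (A : ℝ), 0 < N → ∀ g : ℕ, 2 ≤ g → ∀ᶠ k : ℕ in atTop,
          ¬ Exceptional c x j N B d (((g ^ k : ℕ) : ℝ) ^ A)
            (fun i => ((⌊(g : ℝ) ^ k * ξ i⌋ : ℤ) : ℚ) / ((g ^ k : ℕ) : ℚ)) := by
  refine ⟨fun Q ρ τ hρ hτ hQ => denominators n hn Q ρ τ hρ hτ hQ, ?_⟩
  have key := fun g : {g : ℕ // 2 ≤ g} => denominators n hn (Set.range fun k : ℕ => g.1 ^ k) 0 1
    le_rfl one_pos (thin_pow g.1 g.2)
  choose E hE hE' using key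
  refine ⟨⋃ i, E i, ?_, ?_⟩
  · rw [dimH_iUnion]
    refine iSup_le fun g => ?_
    have := hE g
    rwa [add_zero, div_one] at this
  · intro ξ hξ r c x j a b hc hξab hpole N B d A hN g hg
    rw [Set.mem_iUnion] at hξ
    push Not at hξ
    have h1 := hE' ⟨g, hg⟩ ξ (hξ _) r c x j a b hc hξab hpole N B d A 1 hN
    have hinj : Function.Injective fun k : ℕ => ((g ^ k, fun i => ⌊(g : ℝ) ^ k * ξ i⌋) :
        ℕ × (Fin n → ℤ)) := by
      intro k k' h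
      simp only [Prod.mk.injEq] at h
      exact Nat.pow_right_injective hg h.1
    have h2 := h1.preimage (hinj.injOn (s := _))
    rw [← Nat.cofinite_eq_atTop]
    refine h2.subset ?_
    intro k hk
    rw [Set.mem_compl_iff, Set.mem_ofPred_eq, not_not] at hk
    have hgk : 1 ≤ g ^ k := Nat.one_le_pow _ _ (by omega)
    have hgk' : (1 : ℝ) ≤ (g : ℝ) ^ k := by exact_mod_cast hgk
    refine ⟨⟨hgk, ⟨k, rfl⟩⟩, ?_, hk⟩
    simp only
    rw [one_mul, dist_pi_le_iff (by positivity)]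
    intro i
    rw [Real.dist_eq, Nat.cast_pow]
    have hp : (0 : ℝ) < (g : ℝ) ^ k := by linarith
    have h3 := Int.floor_le ((g : ℝ) ^ k * ξ i)
    have h4 := Int.lt_floor_add_one ((g : ℝ) ^ k * ξ i)
    have h5 : (⌊(g : ℝ) ^ k * ξ i⌋ : ℝ) / (g : ℝ) ^ k - ξ i =
        ((⌊(g : ℝ) ^ k * ξ i⌋ : ℝ) - (g : ℝ) ^ k * ξ i) / (g : ℝ) ^ k := by
      field_simp
    rw [h5, abs_div, abs_of_pos hp, Real.rpow_neg hp.le, Real.rpow_one, ← one_div]
    refine div_le_div_of_nonneg_right ?_ hp.le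
    rw [abs_le]
    constructor <;> linarith

end Pool.Agent.Results.MP_c2409d_nt.CommonDenominators
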