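import Pool.Agent.Results.MP_c2409d_nt.OneParameter
import Pool.Agent.R482.ST.Star

/-!
# Rohrlich's conjecture without exceptions near the values of powers, orbits and other sequences

We consider the products `Γ(x_1 + y_1 / n) ⋯ Γ(x_r + y_r / n)` for fixed rational `x_j` and `y_j ≠ 0` (with the condition of
`OneParameter`: for some rational `w` the numbers of the `j` with `y_j > 0` and with `y_j < 0` for which `x_j + y_j w` is an
integer are different, for instance all `y_j` are positive), for all integers `n` in windows around the values `f_l(α)` of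
functions `f_l`, `l = 0, 1, 2, …`, which are positive on `(a, ∞)`, `a ≥ 0`, such that `f_l(t) / t` is nondecreasing, and such
that the sequence `f_l(t)` has exponent of convergence at most `τ` for each `t > a`: for instance `f_l(t) = t ^ l` (`τ = 0`),
the orbits `f_l(t) = g (g (⋯ g (t)))` of a map `g` with `g(t) > t` and `g(t) / t` nondecreasing (`τ = 0`), and
`f_l(t) = v_l t`. For all `α > a` outside a set of Hausdorff dimension at most `τ / (1 - θ)` (so `0` in these examples and for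
`f_l(t) = 10 ^ l t`), all these families, all `d` and `A`, and all but finitely many `l`, for EVERY positive integer `n` with
`|n - f_l(α)| ≤ c f_l(α) ^ θ` the product is not a multiple of the given number `β` (for instance of a power of `√π`) by an
algebraic number of degree at most `d` and height at most `n ^ A`.
-/

set_option autoImplicit false

namespace Pool.Agent.Results.MP_c2409d_nt.StarshapedWindows

open Pool.Agent.Results.MP_c2409d_nt.OneParameter (AlgLe)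

/-- the functions `f n` are positive on `(a, ∞)`, `a ≥ 0`, and `f n x / x` is nondecreasing there -/
def Starshaped (a : ℝ) (f : ℕ → ℝ → ℝ) : Prop :=
  0 ≤ a ∧ ∀ n : ℕ, ∀ x y : ℝ, a < x → x ≤ y → 0 < f n x ∧ f n x / x ≤ f n y / y

/-- for each `x > a` the exponent of convergence of the sequence `f n x` is at most `τ` -/
def ExpLe (a : ℝ) (f : ℕ → ℝ → ℝ) (τ : ℝ) : Prop :=
  ∀ x : ℝ, a < x → ∀ t : ℝ, τ < t → Summable (fun n : ℕ => (f n x) ^ (-t))

/-- The condition on the family: all `y_j ≠ 0`, and for some rational number `w` the number of the `j` with `y_j > 0` and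
`x_j + y_j w` an integer is different from the number of the `j` with `y_j < 0` and `x_j + y_j w` an integer. -/
def Unbalanced {r : ℕ} (x y : Fin r → ℚ) : Prop :=
  (∀ j, y j ≠ 0) ∧ ∃ w : ℚ, {j | 0 < y j ∧ ∃ z : ℤ, x j + y j * w = z}.ncard ≠
    {j | y j < 0 ∧ ∃ z : ℤ, x j + y j * w = z}.ncard

/-- `n ≥ 1` is exceptional: the product is `α β` with an algebraic number `α` of degree at most `d` and height at most
`n ^ A`. -/
def Exc {r : ℕ} (x y : Fin r → ℚ) (β : ℂ) (d : ℕ) (A : ℝ) : Set ℕ :=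
  {n | 1 ≤ n ∧ ∃ α : ℂ, AlgLe d ((n : ℝ) ^ A) α ∧ ∏ j, Complex.Gamma ((x j : ℂ) + y j / n) = α * β}

/-- a set with at most `Z` elements in every interval `[N, N ^ 2]` has at most `C T ^ ε` elements up to `T` -/
theorem count_of (S : Set ℕ) (Z : ℕ) (hS : ∀ N : ℝ, 1 ≤ N → {n | n ∈ S ∧ N ≤ n ∧ (n : ℝ) ≤ N ^ (2 : ℝ)}.ncard ≤ Z)
    (ε : ℝ) (hε : 0 < ε) : ∃ C : ℝ, ∀ T : ℝ, 1 ≤ T → {n | n ∈ S ∧ (n : ℝ) ≤ T}.Finite ∧
      ({n | n ∈ S ∧ (n : ℝ) ≤ T}.ncard : ℝ) ≤ C * T ^ (0 + ε) := by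
  -- `[1, 2 ^ (2 ^ m)]` contains at most `3 + Z m` elements
  have h1 : ∀ m : ℕ, {n | n ∈ S ∧ n ≤ 2 ^ (2 ^ m)}.ncard ≤ 3 + Z * m := by
    intro m
    induction m with
    | zero =>
      have hsub : {n | n ∈ S ∧ n ≤ 2 ^ (2 ^ 0)} ⊆ ((Finset.range 3 : Finset ℕ) : Set ℕ) := by
        rintro n ⟨-, h⟩
        rw [Finset.mem_coe, Finset.mem_range]
        norm_num at h
        omega
      have := Set.ncard_le_ncard hsub (Finset.finite_toSet _)
      rw [Set.ncard_coe_finset, Finset.card_range] at this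
      omega
    | succ m ih =>
      have hfin1 : {n | n ∈ S ∧ n ≤ 2 ^ (2 ^ m)}.Finite :=
        (Set.finite_Iic (2 ^ (2 ^ m))).subset fun n hn => hn.2
      have hfin2 : {n : ℕ | n ∈ S ∧ ((2 ^ (2 ^ m) : ℕ) : ℝ) ≤ n ∧
          (n : ℝ) ≤ ((2 ^ (2 ^ m) : ℕ) : ℝ) ^ (2 : ℝ)}.Finite := by
        refine (Set.finite_Iic (2 ^ (2 ^ (m + 1)))).subset ?_
        rintro n ⟨-, -, h⟩
        rw [Set.mem_Iic]
        rw [Real.rpow_two] at h
        have h2 : n ≤ (2 ^ (2 ^ m)) ^ 2 := by exact_mod_cast h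
        rwa [← pow_mul, ← pow_succ] at h2
      have hsub : {n | n ∈ S ∧ n ≤ 2 ^ (2 ^ (m + 1))} ⊆ {n | n ∈ S ∧ n ≤ 2 ^ (2 ^ m)} ∪
          {n : ℕ | n ∈ S ∧ ((2 ^ (2 ^ m) : ℕ) : ℝ) ≤ n ∧
          (n : ℝ) ≤ ((2 ^ (2 ^ m) : ℕ) : ℝ) ^ (2 : ℝ)} := by
        rintro n ⟨hn1, hn2⟩
        rcases le_or_gt n (2 ^ (2 ^ m)) with h | h
        · exact Or.inl ⟨hn1, h⟩
        · right
          refine ⟨hn1, by exact_mod_cast h.le, ?_⟩
          rw [Real.rpow_two]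
          rw [pow_succ, pow_mul] at hn2
          exact_mod_cast hn2
      have h2 := Set.ncard_le_ncard hsub (hfin1.union hfin2)
      have h3 := Set.ncard_union_le {n | n ∈ S ∧ n ≤ 2 ^ (2 ^ m)} {n : ℕ | n ∈ S ∧
        ((2 ^ (2 ^ m) : ℕ) : ℝ) ≤ n ∧ (n : ℝ) ≤ ((2 ^ (2 ^ m) : ℕ) : ℝ) ^ (2 : ℝ)}
      have h4 := hS ((2 ^ (2 ^ m) : ℕ) : ℝ) (by exact_mod_cast Nat.one_le_two_pow)
      calc _ ≤ _ := h2.trans h3
        _ ≤ (3 + Z * m) + Z := Nat.add_le_add ih h4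
        _ = 3 + Z * (m + 1) := by ring
  refine ⟨3 + Z * (1 / (ε * Real.log 2) + 2), fun T hT => ?_⟩
  have hT0 : (0 : ℝ) < T := by linarith
  have hfin : {n | n ∈ S ∧ (n : ℝ) ≤ T}.Finite :=
    (Set.finite_Iic ⌊T⌋₊).subset fun n hn => Nat.le_floor hn.2
  refine ⟨hfin, ?_⟩
  -- choose `m` with `T ≤ 2 ^ (2 ^ m)`
  set m : ℕ := ⌈Real.log T / Real.log 2⌉₊ + 1 with hm
  have hlog2 : 0 < Real.log 2 := Real.log_pos (by norm_num)
  have hlogT : 0 ≤ Real.log T := Real.log_nonneg hT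
  have hTm : T ≤ ((2 ^ (2 ^ m) : ℕ) : ℝ) := by
    have h2 : Real.log T / Real.log 2 ≤ (m : ℝ) := by
      rw [hm]
      push_cast
      linarith [Nat.le_ceil (Real.log T / Real.log 2)]
    have h3 : (m : ℝ) ≤ ((2 ^ m : ℕ) : ℝ) := by exact_mod_cast Nat.lt_two_pow_self.le
    have h4 : Real.log T ≤ ((2 ^ m : ℕ) : ℝ) * Real.log 2 := by
      rw [div_le_iff₀ hlog2] at h2
      exact h2.trans (mul_le_mul_of_nonneg_right h3 hlog2.le)
    rw [← Real.log_pow] at h4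
    have h5 := (Real.log_le_log_iff hT0 (by positivity)).1 h4
    exact_mod_cast h5
  have hsub : {n | n ∈ S ∧ (n : ℝ) ≤ T} ⊆ {n | n ∈ S ∧ n ≤ 2 ^ (2 ^ m)} := by
    rintro n ⟨hn1, hn2⟩
    exact ⟨hn1, by exact_mod_cast hn2.trans hTm⟩
  have h2 : ({n | n ∈ S ∧ (n : ℝ) ≤ T}.ncard : ℝ) ≤ 3 + Z * m := by
    have h3 := Set.ncard_le_ncard hsub
      ((Set.finite_Iic (2 ^ (2 ^ m))).subset fun n hn => hn.2)
    exact_mod_cast h3.trans (h1 m)
  have h3 : (m : ℝ) ≤ Real.log T / Real.log 2 + 2 := by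
    rw [hm]
    push_cast
    have := Nat.ceil_lt_add_one (show 0 ≤ Real.log T / Real.log 2 by positivity)
    linarith
  have h4 : Real.log T ≤ T ^ ε / ε := Real.log_le_rpow_div hT0.le hε
  have h5 : 1 ≤ T ^ ε := Real.one_le_rpow hT hε.le
  have h6 : (m : ℝ) ≤ (1 / (ε * Real.log 2) + 2) * T ^ ε := by
    calc (m : ℝ) ≤ Real.log T / Real.log 2 + 2 := h3
      _ ≤ (T ^ ε / ε) / Real.log 2 + 2 * T ^ ε := by
          have : Real.log T / Real.log 2 ≤ (T ^ ε / ε) / Real.log 2 := by gcongr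
          linarith
      _ = (1 / (ε * Real.log 2) + 2) * T ^ ε := by
          field_simp
  have hZ : (0 : ℝ) ≤ Z := Nat.cast_nonneg Z
  rw [zero_add]
  calc _ ≤ 3 + (Z : ℝ) * m := h2
    _ ≤ 3 * T ^ ε + Z * ((1 / (ε * Real.log 2) + 2) * T ^ ε) := by
        have := mul_le_mul_of_nonneg_left h6 hZ
        linarith
    _ = (3 + Z * (1 / (ε * Real.log 2) + 2)) * T ^ ε := by ring

theorem exc_count {r : ℕ} (x y : Fin r → ℚ) (h : Unbalanced x y) (β : ℂ) (d : ℕ) (A : ℝ) (ε : ℝ) (hε : 0 < ε) :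
    ∃ C : ℝ, ∀ T : ℝ, 1 ≤ T → {n | n ∈ Exc x y β d A ∧ (n : ℝ) ≤ T}.Finite ∧
      ({n | n ∈ Exc x y β d A ∧ (n : ℝ) ≤ T}.ncard : ℝ) ≤ C * T ^ (0 + ε) := by
  obtain ⟨hy, w, hw⟩ := h
  obtain ⟨Z, hZ⟩ := Pool.Agent.Results.MP_c2409d_nt.OneParameter.result x y hy w hw d A 2
  refine count_of _ Z (fun N hN => ?_) ε hε
  refine le_trans (Set.ncard_le_ncard ?_ ?_) (hZ β N hN)
  · rintro n ⟨⟨h1, α, h2, h3⟩, h4, h5⟩
    exact ⟨h4, h5, α, h2, h3⟩
  · refine (Set.finite_Iic ⌊N ^ (2 : ℝ)⌋₊).subset ?_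
    rintro n ⟨-, h5, -⟩
    exact Nat.le_floor h5

/-- the parameters of the countably many families -/
abbrev Index : Type := Σ r : ℕ, (Fin r → ℚ) × (Fin r → ℚ) × ℕ × ℕ

/-- **Theorem.** Let `β` be a complex number (for instance a power of `√π`).

(1) Let `f` be starshaped functions on `(a, ∞)` of exponent of convergence at most `τ ≥ 0` and `θ < 1`. There is a set `E` of
Hausdorff dimension at most `τ / (1 - θ)` such that for each `α > a` outside `E`, all unbalanced families `x`, `y`, all `d`,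
`A` and `c`, for all but finitely many `l` and EVERY positive integer `n` with `|n - f_l(α)| ≤ c f_l(α) ^ θ` the product
`Γ(x_1 + y_1 / n) ⋯ Γ(x_r + y_r / n)` is not of the form `γ β` with an algebraic number `γ` of degree at most `d` and height
at most `n ^ A`.

(2) If `τ = 0` there is a set `E` of Hausdorff dimension `0` with this property for all `θ < 1`.

(3) The functions `v_n x`, `v_n > 0`, are starshaped on `(0, ∞)`, of exponent `τ` if `v` has exponent of convergence at most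
`τ`; the functions `x ^ (v_n)`, `v_n ≥ 1`, are starshaped on `(1, ∞)`, of exponent `0` if the sums of `exp (-t v_n)` converge
for `t > 0`; and the iterates of a map `g` with `g(x) > x` for `x > a` and `g(x) / x` nondecreasing are starshaped on
`(a, ∞)`, of exponent `0`. -/
theorem result (β : ℂ) :
    (∀ (a : ℝ) (f : ℕ → ℝ → ℝ) (τ θ : ℝ), Starshaped a f → 0 ≤ τ → ExpLe a f τ → θ < 1 →
      ∃ E : Set ℝ, dimH E ≤ ENNReal.ofReal (τ / (1 - θ)) ∧
        ∀ α : ℝ, a < α → α ∉ E → ∀ (r : ℕ) (x y : Fin r → ℚ), Unbalanced x y → ∀ (d : ℕ) (A c : ℝ),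
          ∃ l₀ : ℕ, ∀ l : ℕ, l₀ ≤ l → ∀ n : ℕ, 1 ≤ n → |(n : ℝ) - f l α| ≤ c * (f l α) ^ θ →
            ∀ γ : ℂ, AlgLe d ((n : ℝ) ^ A) γ → ∏ j, Complex.Gamma ((x j : ℂ) + y j / n) ≠ γ * β) ∧
    (∀ (a : ℝ) (f : ℕ → ℝ → ℝ), Starshaped a f → ExpLe a f 0 →
      ∃ E : Set ℝ, dimH E = 0 ∧
        ∀ α : ℝ, a < α → α ∉ E → ∀ (r : ℕ) (x y : Fin r → ℚ), Unbalanced x y → ∀ (d : ℕ) (A c θ : ℝ), θ < 1 →
          ∃ l₀ : ℕ, ∀ l : ℕ, l₀ ≤ l → ∀ n : ℕ, 1 ≤ n → |(n : ℝ) - f l α| ≤ c * (f l α) ^ θ →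
            ∀ γ : ℂ, AlgLe d ((n : ℝ) ^ A) γ → ∏ j, Complex.Gamma ((x j : ℂ) + y j / n) ≠ γ * β) ∧
    (∀ (v : ℕ → ℝ) (τ : ℝ), (∀ n, 0 < v n) → (∀ t : ℝ, τ < t → Summable (fun n : ℕ => (v n) ^ (-t))) →
      Starshaped 0 (fun n x => v n * x) ∧ ExpLe 0 (fun n x => v n * x) τ) ∧
    (∀ v : ℕ → ℝ, (∀ n, 1 ≤ v n) → (∀ t : ℝ, 0 < t → Summable fun n : ℕ => Real.exp (-(t * v n))) →
      Starshaped 1 (fun n x => x ^ (v n)) ∧ ExpLe 1 (fun n x => x ^ (v n)) 0) ∧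
    (∀ (a : ℝ) (g : ℝ → ℝ), 0 ≤ a → (∀ x y : ℝ, a < x → x ≤ y → g x / x ≤ g y / y) → (∀ x : ℝ, a < x → x < g x) →
      Starshaped a (fun n x => g^[n] x) ∧ ExpLe a (fun n x => g^[n] x) 0) := by
  have main : ∀ (a : ℝ) (f : ℕ → ℝ → ℝ) (τ θ : ℝ), Starshaped a f → 0 ≤ τ → ExpLe a f τ → θ < 1 →
      ∃ E : Set ℝ, dimH E ≤ ENNReal.ofReal (τ / (1 - θ)) ∧
        ∀ α : ℝ, a < α → α ∉ E → ∀ (r : ℕ) (x y : Fin r → ℚ), Unbalanced x y → ∀ (d : ℕ) (A c : ℝ),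
          ∃ l₀ : ℕ, ∀ l : ℕ, l₀ ≤ l → ∀ n : ℕ, 1 ≤ n → |(n : ℝ) - f l α| ≤ c * (f l α) ^ θ →
            ∀ γ : ℂ, AlgLe d ((n : ℝ) ^ A) γ → ∏ j, Complex.Gamma ((x j : ℂ) + y j / n) ≠ γ * β := by
    intro a f τ θ hf hτ hE hθ
    have key : ∀ i : Index, ∃ E : Set ℝ, dimH E ≤ ENNReal.ofReal ((0 + τ) / (1 - θ)) ∧
        ∀ x : ℝ, a < x → x ∉ E → Unbalanced i.2.1 i.2.2.1 → ∀ c : ℝ, ∃ n₀ : ℕ, ∀ n : ℕ, n₀ ≤ n →
          ∀ t ∈ Exc i.2.1 i.2.2.1 β i.2.2.2.1 (i.2.2.2.2 : ℝ), c * (f n x) ^ θ < |(t : ℝ) - f n x| := by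
      intro i
      by_cases hu : Unbalanced i.2.1 i.2.2.1
      · obtain ⟨E, h2, h3⟩ := Pool.Agent.R482.ST.windows
          (Exc i.2.1 i.2.2.1 β i.2.2.2.1 (i.2.2.2.2 : ℝ)) (fun n : ℕ => (n : ℝ)) hf hτ hE
          (s := 0) (θ := θ) le_rfl hθ (fun ε hε => exc_count _ _ hu β _ _ ε hε)
        exact ⟨E, h2, fun x hx hxE _ c => h3 x hx hxE c⟩
      · exact ⟨∅, by simp, fun x _ _ hu' => absurd hu' hu⟩
    choose E hE1 hE2 using key
    refine ⟨⋃ i, E i, ?_, ?_⟩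
    · rw [dimH_iUnion]
      refine iSup_le fun i => ?_
      have := hE1 i
      rwa [zero_add] at this
    · intro α hα hαE r x y hu d A c
      rw [Set.mem_iUnion] at hαE
      push Not at hαE
      obtain ⟨A', hA'⟩ := exists_nat_ge A
      obtain ⟨l₀, hl⟩ := hE2 ⟨r, x, y, d, A'⟩ α hα (hαE _) hu c
      refine ⟨l₀, fun l hl1 n hn hw γ hγ hcon => ?_⟩
      have hn1 : (1 : ℝ) ≤ n := by exact_mod_cast hn
      refine absurd (hl l hl1 n ⟨hn, γ, ?_, hcon⟩) (not_lt.2 hw)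
      obtain ⟨p, h1, h2, h3, h4⟩ := hγ
      exact ⟨p, h1, h2, fun i => (h3 i).trans (Real.rpow_le_rpow_of_exponent_le hn1 hA'), h4⟩
  refine ⟨main, fun a f hf hE => ?_, Pool.Agent.R482.ST.ex_mul, Pool.Agent.R482.ST.ex_pow,
    Pool.Agent.R482.ST.ex_orbit⟩
  have key := fun m : ℕ => main a f 0 (1 - 1 / ((m : ℝ) + 1)) hf le_rfl hE (by
    have : 0 < 1 / ((m : ℝ) + 1) := by positivity
    linarith)
  choose E hE1 hE2 using key
  refine ⟨⋃ m, E m, ?_, ?_⟩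
  · rw [dimH_iUnion, ← nonpos_iff_eq_zero]
    refine iSup_le fun m => ?_
    have := hE1 m
    rwa [zero_div, ENNReal.ofReal_zero] at this
  · intro α hα hαE r x y hu d A c θ hθ
    rw [Set.mem_iUnion] at hαE
    push Not at hαE
    obtain ⟨m, hm⟩ := exists_nat_one_div_lt (show (0 : ℝ) < 1 - θ by linarith)
    -- the window of exponent `θ` lies in the window of exponent `1 - 1 / (m + 1)` once `f_l(α) ≥ 1`
    obtain ⟨l₀, hl⟩ := hE2 m α hα (hαE m) r x y hu d A |c|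
    have hpos : ∀ l, 0 < f l α := fun l => (hf.2 l α α hα le_rfl).1
    have hs := hE α hα 1 one_pos
    have ht := hs.tendsto_atTop_zero
    have hev : ∀ᶠ l in Filter.atTop, (f l α) ^ (-(1 : ℝ)) < 1 := ht.eventually (gt_mem_nhds one_pos)
    obtain ⟨l₁, hl₁⟩ := Filter.eventually_atTop.1 hev
    refine ⟨max l₀ l₁, fun l hl' n hn hw => ?_⟩
    refine hl l (le_of_max_le_left hl') n hn ?_
    have h1 : 1 ≤ f l α := by
      have h2 := hl₁ l (le_of_max_le_right hl')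
      rw [Real.rpow_neg_one] at h2
      by_contra h3
      push Not at h3
      exact absurd h2 (not_lt.2 ((one_le_inv₀ (hpos l)).2 h3.le))
    have h2 : (f l α) ^ θ ≤ (f l α) ^ (1 - 1 / ((m : ℝ) + 1)) :=
      Real.rpow_le_rpow_of_exponent_le h1 (by linarith)
    calc |(n : ℝ) - f l α| ≤ c * (f l α) ^ θ := hw
      _ ≤ |c| * (f l α) ^ θ := mul_le_mul_of_nonneg_right (le_abs_self c) (by positivity)
      _ ≤ |c| * (f l α) ^ (1 - 1 / ((m : ℝ) + 1)) := mul_le_mul_of_nonneg_left h2 (abs_nonneg c)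

end Pool.Agent.Results.MP_c2409d_nt.StarshapedWindows
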